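import Pool.Agent.PMU.Defs

/-!
# The auction algorithm is correct
-/

namespace Pool.Agent.PMU

open Finset

variable {n : ℕ}

/-- The invariant. -/
structure Inv (x : Fin n → Fin n → Prop) (s : St n) (q : Fin n → ℕ) : Prop where
  pr : ∀ b (t : Fin n), s.p b t ↔ t.val < q b
  le : ∀ b, q b ≤ n
  adj : ∀ a b, s.o a b → x a b
  fn : ∀ a b b', s.o a b → s.o a b' → b = b'
  inj : ∀ a a' b, s.o a b → s.o a' b → a = a'
  own : ∀ b, q b ≠ 0 → ∃ a, s.o a b
  near : ∀ a b b', s.o a b → x a b' → q b ≤ q b' + 1

theorem inv_ini (x : Fin n → Fin n → Prop) : Inv x (st x 0) (fun _ => 0) where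
  pr b t := by simp [st]
  le b := Nat.zero_le _
  adj a b h := h.elim
  fn a b b' h := h.elim
  inj a a' b h := h.elim
  own b h := (h rfl).elim
  near a b b' h := h.elim

variable {x : Fin n → Fin n → Prop} {s : St n} {q : Fin n → ℕ}

theorem Inv.leq (h : Inv x s q) (b b' : Fin n) : Leq s b b' ↔ q b ≤ q b' := by
  constructor
  · intro h1
    by_contra h2
    push Not at h2
    have h3 : q b' < n := lt_of_lt_of_le h2 (h.le b)
    have h4 := (h.pr b' ⟨q b', h3⟩).mp (h1 _ ((h.pr b ⟨q b', h3⟩).mpr h2))
    exact lt_irrefl _ h4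
  · intro h1 t ht
    rw [h.pr] at ht ⊢
    omega

theorem Inv.best_iff (h : Inv x s q) (a b : Fin n) :
    Best x s a b ↔ Frst s a ∧ x a b ∧ q b < n ∧ ∀ b', x a b' → q b ≤ q b' ∧
      (q b < q b' ∨ b ≤ b') := by
  have h1 : (∃ t, ¬ s.p b t) ↔ q b < n := by
    constructor
    · rintro ⟨t, ht⟩
      rw [h.pr] at ht
      have := t.isLt
      omega
    · intro h2
      exact ⟨⟨q b, h2⟩, by rw [h.pr]; exact lt_irrefl _⟩
  unfold Best
  rw [h1]
  simp only [h.leq, not_le]

theorem frst_unique {a a' : Fin n} (h : Frst s a) (h' : Frst s a') : a = a' := by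
  rcases lt_trichotomy a a' with h1 | h1 | h1
  · exact (h'.2 a h1 h.1).elim
  · exact h1
  · exact (h.2 a' h1 h'.1).elim

theorem best_unique {a a' b b' : Fin n} (h : Best x s a b) (h' : Best x s a' b') :
    a = a' ∧ b = b' := by
  have h1 := frst_unique h.1 h'.1
  subst h1
  refine ⟨rfl, ?_⟩
  obtain ⟨_, h2, _, h3⟩ := h
  obtain ⟨_, h4, _, h5⟩ := h'
  obtain ⟨h6, h7⟩ := h3 b' h4
  obtain ⟨h8, h9⟩ := h5 b h2
  exact le_antisymm (h7.resolve_left (fun h => h h8)) (h9.resolve_left (fun h => h h6))

theorem nxt_of_not (h : ∀ a b, ¬ Best x s a b) : nxt x s = s := by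
  obtain ⟨o, p⟩ := s
  unfold nxt
  congr 1
  · funext a b
    simp only [h, false_or, not_false_eq_true, implies_true, and_true]
  · funext b t
    simp only [h, exists_false, false_and, or_false]

/-- A purchase. -/
theorem inv_nxt (h : Inv x s q) {a b : Fin n} (hb : Best x s a b) :
    Inv x (nxt x s) (Function.update q b (q b + 1)) := by
  obtain ⟨hf, hx, hq, hm⟩ := (h.best_iff a b).mp hb
  have hB : ∀ a' b', Best x s a' b' ↔ a' = a ∧ b' = b := by
    intro a' b'
    constructor
    · intro h'; exact best_unique h' hb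
    · rintro ⟨rfl, rfl⟩; exact hb
  have ho : ∀ a' b', (nxt x s).o a' b' ↔ (a' = a ∧ b' = b) ∨ (s.o a' b' ∧ b' ≠ b) := by
    intro a' b'
    simp only [nxt, hB, not_and]
    constructor
    · rintro (h1 | ⟨h1, h2⟩)
      · exact Or.inl h1
      · exact Or.inr ⟨h1, h2 a rfl⟩
    · rintro (h1 | ⟨h1, h2⟩)
      · exact Or.inl h1
      · exact Or.inr ⟨h1, fun _ _ => h2⟩
  constructor
  · intro b' t
    have h1 : (nxt x s).p b' t ↔ (s.p b' t ∨ (b' = b ∧ ∀ t', t' < t → s.p b' t')) := by
      simp only [nxt, hB]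
      constructor
      · rintro (h1 | ⟨⟨_, _, h2⟩, h3⟩)
        · exact Or.inl h1
        · exact Or.inr ⟨h2, h3⟩
      · rintro (h1 | ⟨h2, h3⟩)
        · exact Or.inl h1
        · exact Or.inr ⟨⟨a, rfl, h2⟩, h3⟩
    rw [h1, h.pr]
    by_cases hbb : b' = b
    · subst hbb
      rw [Function.update_self]
      constructor
      · rintro (h2 | ⟨_, h2⟩)
        · omega
        · by_contra h3
          push Not at h3
          have h4 : q b' < t.val := by omega
          have h5 := (h.pr b' ⟨q b', by have := t.isLt; omega⟩).mp (h2 _ h4)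
          exact lt_irrefl _ h5
      · intro h2
        rcases Nat.lt_or_ge t.val (q b') with h3 | h3
        · exact Or.inl h3
        · refine Or.inr ⟨rfl, fun t' ht' => ?_⟩
          rw [h.pr]
          have : t'.val < t.val := ht'
          omega
    · rw [Function.update_of_ne hbb]
      simp [hbb]
  · intro b'
    by_cases hbb : b' = b
    · subst hbb; rw [Function.update_self]; omega
    · rw [Function.update_of_ne hbb]; exact h.le b'
  · intro a' b' h1
    rcases (ho a' b').mp h1 with ⟨rfl, rfl⟩ | h2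
    · exact hx
    · exact h.adj _ _ h2.1
  · intro a' b' b'' h1 h2
    rcases (ho a' b').mp h1 with ⟨h3, h4⟩ | h3
    · rcases (ho a' b'').mp h2 with ⟨h5, h6⟩ | h5
      · rw [h4, h6]
      · rw [h3] at h5; exact (hf.1 b'' h5.1).elim
    · rcases (ho a' b'').mp h2 with ⟨h5, h6⟩ | h5
      · rw [h5] at h3; exact (hf.1 b' h3.1).elim
      · exact h.fn _ _ _ h3.1 h5.1
  · intro a' a'' b' h1 h2
    rcases (ho a' b').mp h1 with ⟨h3, h4⟩ | h3
    · rcases (ho a'' b').mp h2 with ⟨h5, h6⟩ | h5
      · rw [h3, h5]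
      · exact (h5.2 h4).elim
    · rcases (ho a'' b').mp h2 with ⟨h5, h6⟩ | h5
      · exact (h3.2 h6).elim
      · exact h.inj _ _ _ h3.1 h5.1
  · intro b' h1
    by_cases hbb : b' = b
    · subst hbb; exact ⟨a, (ho a b').mpr (Or.inl ⟨rfl, rfl⟩)⟩
    · rw [Function.update_of_ne hbb] at h1
      obtain ⟨a', ha'⟩ := h.own b' h1
      exact ⟨a', (ho a' b').mpr (Or.inr ⟨ha', hbb⟩)⟩
  · intro a' b' b'' h1 h2
    have h0 : q b'' ≤ Function.update q b (q b + 1) b'' := by
      by_cases hbb : b'' = b
      · subst hbb; rw [Function.update_self]; omega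
      · rw [Function.update_of_ne hbb]
    rcases (ho a' b').mp h1 with ⟨h3, h4⟩ | h3
    · rw [h4, Function.update_self]
      rw [h3] at h2
      have := (hm b'' h2).1
      omega
    · rw [Function.update_of_ne h3.2]
      have := h.near a' b' b'' h3.1 h2
      omega

/-- If there is a perfect matching then some neighbour of a vertex without property is cheap. -/
theorem exists_cheap (h : Inv x s q) {a₀ : Fin n} (h0 : Free s a₀) (π : Equiv.Perm (Fin n))
    (hπ : ∀ a, x a (π a)) : ∃ b, x a₀ b ∧ q b < n := by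
  classical
  by_contra hcon
  push Not at hcon
  have hown : ∀ b, ∃ a, q b ≠ 0 → s.o a b := by
    intro b
    by_cases hb : q b = 0
    · exact ⟨a₀, fun h => (h hb).elim⟩
    · obtain ⟨a, ha⟩ := h.own b hb
      exact ⟨a, fun _ => ha⟩
  choose f hf using hown
  -- a level without prices
  obtain ⟨t, ht1, ht2⟩ : ∃ t ∈ Icc 1 n, ∀ b, q b ≠ t := by
    by_contra h1
    push Not at h1
    have h2 : (Icc 1 n) ⊆ (univ.filter fun b => q b ≠ 0).image q := by
      intro t ht
      obtain ⟨b, hb⟩ := h1 t ht
      rw [mem_Icc] at ht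
      exact mem_image.mpr ⟨b, mem_filter.mpr ⟨mem_univ _, by omega⟩, hb⟩
    have h3 := (card_le_card h2).trans card_image_le
    have h4 : (univ.filter fun b => q b ≠ 0).card ≤ (univ.erase a₀).card := by
      apply card_le_card_of_injOn f
      · intro b hb
        have hb' : q b ≠ 0 := by simpa using hb
        simp only [coe_erase, coe_univ, Set.mem_sdiff, Set.mem_univ, Set.mem_singleton_iff, true_and]
        intro h5
        have h6 := hf b hb'
        rw [h5] at h6
        exact h0 b h6
      · intro b hb b' hb' hbb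
        have h5 := hf b (by simpa using hb)
        have h6 := hf b' (by simpa using hb')
        rw [← hbb] at h6
        exact h.fn _ _ _ h5 h6
    rw [card_erase_of_mem (mem_univ _), card_univ, Fintype.card_fin] at h4
    rw [Nat.card_Icc] at h3
    have := a₀.isLt
    omega
  rw [mem_Icc] at ht1
  -- the set of vertices with expensive neighbours
  let S : Finset (Fin n) := univ.filter fun b => t < q b
  have hS : ∀ b, b ∈ S ↔ t < q b := fun b => by simp [S]
  let A : Finset (Fin n) := insert a₀ (S.image f)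
  have h1 : A.card = S.card + 1 := by
    rw [card_insert_of_notMem, card_image_of_injOn]
    · intro b hb b' hb' hbb
      have hb1 : t < q b := (hS b).mp hb
      have hb2 : t < q b' := (hS b').mp hb'
      have h5 := hf b (by omega)
      have h6 := hf b' (by omega)
      rw [← hbb] at h6
      exact h.fn _ _ _ h5 h6
    · intro h2
      obtain ⟨b, hb, hb2⟩ := mem_image.mp h2
      have hb1 : t < q b := (hS b).mp hb
      have h5 := hf b (by omega)
      rw [hb2] at h5
      exact h0 b h5
  have h2 : A.card ≤ S.card := by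
    apply card_le_card_of_injOn π
    · intro a ha
      have hgt : t ≤ q (π a) := by
        rcases mem_insert.mp (mem_coe.mp ha) with h3 | h3
        · rw [h3]
          have := hcon (π a₀) (hπ a₀)
          omega
        · obtain ⟨b, hb, hb2⟩ := mem_image.mp h3
          have hb1 : t < q b := (hS b).mp hb
          have h5 := hf b (by omega)
          rw [hb2] at h5
          have := h.near a b (π a) h5 (hπ a)
          omega
      have := ht2 (π a)
      exact mem_coe.mpr ((hS _).mpr (by omega))
    · exact π.injective.injOn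
  omega

theorem exists_best (h : Inv x s q) {a₀ : Fin n} (h0 : Free s a₀) (π : Equiv.Perm (Fin n))
    (hπ : ∀ a, x a (π a)) : ∃ a b, Best x s a b := by
  classical
  obtain ⟨a, ha, hmin⟩ : ∃ a, Free s a ∧ ∀ a', a' < a → ¬ Free s a' := by
    have h1 : (univ.filter fun a => Free s a).Nonempty := ⟨a₀, by simp [h0]⟩
    refine ⟨(univ.filter fun a => Free s a).min' h1, ?_, ?_⟩
    · have := min'_mem _ h1
      simpa using this
    · intro a' ha' hf
      have := min'_le (univ.filter fun a => Free s a) a' (by simp [hf])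
      exact absurd ha' (not_lt.mpr this)
  obtain ⟨b0, hb0, hb0'⟩ := exists_cheap h ha π hπ
  have h1 : (univ.filter fun b => x a b).Nonempty := ⟨b0, by simp [hb0]⟩
  obtain ⟨b1, hb1, hb1'⟩ := exists_min_image _ q h1
  have h2 : (univ.filter fun b => x a b ∧ q b = q b1).Nonempty :=
    ⟨b1, by simpa using hb1⟩
  have hm := min'_mem _ h2
  set b := (univ.filter fun b => x a b ∧ q b = q b1).min' h2 with hb
  have hm' : x a b ∧ q b = q b1 := by simpa using hm
  refine ⟨a, b, (h.best_iff a b).mpr ⟨⟨ha, hmin⟩, hm'.1, ?_, ?_⟩⟩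
  · have := hb1' b0 (by simp [hb0])
    omega
  · intro b' hb'
    have h3 := hb1' b' (by simp [hb'])
    refine ⟨by omega, ?_⟩
    rcases Nat.lt_or_ge (q b) (q b') with h4 | h4
    · exact Or.inl h4
    · refine Or.inr (min'_le _ _ ?_)
      simp only [mem_filter, mem_univ, true_and]
      exact ⟨hb', by omega⟩

/-- The invariant holds always. -/
theorem exists_inv (x : Fin n → Fin n → Prop) (k : ℕ) : ∃ q, Inv x (st x k) q ∧
    ((∃ π : Equiv.Perm (Fin n), ∀ a, x a (π a)) → (∀ a, ¬ Free (st x k) a) ∨ ∑ b, q b = k) := by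
  classical
  induction k with
  | zero => exact ⟨_, inv_ini x, fun _ => Or.inr (by simp)⟩
  | succ k ih =>
    obtain ⟨q, hq, hk⟩ := ih
    by_cases hb : ∃ a b, Best x (st x k) a b
    · obtain ⟨a, b, hab⟩ := hb
      refine ⟨_, inv_nxt hq hab, fun hπ => ?_⟩
      rcases hk hπ with h1 | h1
      · exact (h1 a hab.1.1).elim
      · right
        rw [Finset.sum_update_of_mem (mem_univ b), ← h1,
          ← Finset.add_sum_erase univ q (mem_univ b), sdiff_singleton_eq_erase]
        ring
    · push Not at hb
      have h1 : st x (k + 1) = st x k := nxt_of_not hb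
      rw [h1]
      refine ⟨q, hq, fun hπ => ?_⟩
      obtain ⟨π, hπ'⟩ := hπ
      left
      intro a ha
      obtain ⟨a', b', h2⟩ := exists_best hq ha π hπ'
      exact hb a' b' h2

/-- **The auction algorithm is correct.** -/
theorem auction (x : Fin n → Fin n → Prop) :
    (∀ a, ¬ Free (st x (n ^ 2 + 1)) a) ↔ ∃ π : Equiv.Perm (Fin n), ∀ a, x a (π a) := by
  obtain ⟨q, hq, hk⟩ := exists_inv x (n ^ 2 + 1)
  constructor
  · intro h
    have h1 : ∀ a, ∃ b, (st x (n ^ 2 + 1)).o a b := by
      intro a
      have := h a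
      unfold Free at this
      push Not at this
      exact this
    choose f hf using h1
    have hinj : Function.Injective f := by
      intro a a' haa
      have h2 := hf a'
      rw [← haa] at h2
      exact hq.inj _ _ _ (hf a) h2
    refine ⟨Equiv.ofBijective f (Finite.injective_iff_bijective.mp hinj), fun a => ?_⟩
    exact hq.adj _ _ (hf a)
  · intro hπ
    rcases hk hπ with h | h
    · exact h
    · exfalso
      have h1 : ∑ b, q b ≤ ∑ _b : Fin n, n := Finset.sum_le_sum fun b _ => hq.le b
      rw [Finset.sum_const, card_univ, Fintype.card_fin, smul_eq_mul] at h1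
      have : n * n = n ^ 2 := by ring
      omega

end Pool.Agent.PMU
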