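import Pool.Agent.NTR.Has

/-!
# Composition of circuits
-/

namespace Pool.Agent.PMU

open Pool.Agent.NegLim Pool.Agent.NTR

variable {V β : Type}

/-- Replace the variables by wires and shift the gates. -/
def shW (w : β → Wire V) (d : ℕ) : Wire β → Wire V
  | .var b => w b
  | .const c => .const c
  | .gate i => .gate (d + i)

/-- Replace the variables by wires and shift the gates. -/
def shG (w : β → Wire V) (d : ℕ) : Gate β → Gate V
  | .and a b => .and (shW w d a) (shW w d b)
  | .or a b => .or (shW w d a) (shW w d b)
  | .not a => .not (shW w d a)

theorem shW_val (w : β → Wire V) (x : V → Bool) (l : List Bool)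
    (hw : ∀ b, Bel l.length (w b)) (p : List Bool) (a : Wire β) :
    (shW w l.length a).val x (l ++ p) = a.val (fun b => (w b).val x l) p := by
  cases a with
  | var b => exact wv_append x l p (w b) (hw b)
  | const c => rfl
  | gate i =>
    simp only [shW, Wire.val]
    by_cases h : i < p.length
    · rw [List.getD_eq_getElem _ _ (by rw [List.length_append]; omega),
        List.getElem_append_right (by omega), List.getD_eq_getElem _ _ h]
      congr 1
      omega
    · rw [List.getD_eq_default _ _ (by rw [List.length_append]; omega),
        List.getD_eq_default _ _ (by omega)]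

theorem shG_val (w : β → Wire V) (x : V → Bool) (l : List Bool)
    (hw : ∀ b, Bel l.length (w b)) (p : List Bool) (a : Gate β) :
    (shG w l.length a).val x (l ++ p) = a.val (fun b => (w b).val x l) p := by
  cases a <;> simp only [shG, Gate.val, shW_val w x l hw p]

theorem gateVals_shift (w : β → Wire V) (x : V → Bool) (l : List Bool)
    (hw : ∀ b, Bel l.length (w b)) (C : Circuit β) (p : List Bool) :
    gateVals x (C.map (shG w l.length)) (l ++ p)
      = l ++ gateVals (fun b => (w b).val x l) C p := by
  induction C generalizing p with
  | nil => rfl
  | cons g C ih =>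
    rw [List.map_cons, gateVals, gateVals, shG_val w x l hw, List.append_assoc, ih]

/-- **Composition.** -/
theorem comp_circuit (D : Circuit V) (w : β → Wire V) (hw : ∀ b, Bel D.length (w b))
    (C : Circuit β) :
    ∃ E : Circuit V, E.length = D.length + C.length ∧ Circuit.negs E = Circuit.negs D + Circuit.negs C ∧
      (∀ x a, Bel D.length a → Circuit.val E x a = Circuit.val D x a) ∧
      ∀ o : Wire β, ∃ o' : Wire V, (Bel C.length o → Bel E.length o') ∧
        ∀ x, Circuit.val E x o' = Circuit.val C (fun b => Circuit.val D x (w b)) o := by
  have hlen : ∀ x : V → Bool, (gateVals x D []).length = D.length := by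
    intro x; rw [gv_length]; simp
  have key : ∀ x : V → Bool, gateVals x (D ++ C.map (shG w D.length)) []
      = gateVals x D [] ++ gateVals (fun b => Circuit.val D x (w b)) C [] := by
    intro x
    rw [gateVals_append]
    have h1 := gateVals_shift w x (gateVals x D []) (by rw [hlen]; exact hw) C []
    rw [hlen, List.append_nil] at h1
    exact h1
  refine ⟨D ++ C.map (shG w D.length), by simp, ?_, ?_, ?_⟩
  · unfold Circuit.negs
    rw [List.countP_append, List.countP_map]
    congr 1
    apply List.countP_congr
    intro g _
    cases g <;> simp [shG, Gate.isNot]
  · intro x a ha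
    unfold Circuit.val
    rw [key, wv_append]
    rw [hlen]; exact ha
  · intro o
    refine ⟨shW w D.length o, ?_, ?_⟩
    · intro h
      cases o with
      | var b => exact (hw b).mono (by simp)
      | const c => trivial
      | gate i =>
        simp only [shW, Bel] at h ⊢
        simp only [List.length_append, List.length_map]
        omega
    · intro x
      have h1 := shW_val w x (gateVals x D []) (by rw [hlen]; exact hw)
        (gateVals (fun b => Circuit.val D x (w b)) C []) o
      rw [hlen] at h1
      unfold Circuit.val at h1 ⊢
      have h2 := key x
      unfold Circuit.val at h2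
      rw [h2]
      exact h1

end Pool.Agent.PMU
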