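import Pool.Agent.PMU.Circ
import Pool.Agent.PMU.Auct
import Pool.Agent.PMU.Comp
import Pool.Agent.PMB.Fin

/-!
# Circuits of polynomial size for perfect matchings
-/

namespace Pool.Agent.PMU

open Pool.Agent.NegLim Pool.Agent.NTR Pool.Agent.PMB

/-- **Bipartite perfect matching has circuits of polynomial size.** -/
theorem match_upper (m : ℕ) : ∃ (C : Circuit (Fin m × Fin m)) (o : Wire (Fin m × Fin m)),
    Circuit.size C ≤ 2 ^ 11 * (m + 1) ^ 8 ∧ ∀ u, Circuit.val C u o = true ↔ HasPM u := by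
  obtain ⟨C, o, h1, h2⟩ := st_circuit m (m ^ 2 + 1)
  refine ⟨C, o, h1.trans ?_, fun u => ?_⟩
  · have h3 : m ^ 2 + 1 + 1 ≤ 2 * (m + 1) ^ 2 := by
      have : 2 * (m + 1) ^ 2 = m ^ 2 + 1 + 1 + (m ^ 2 + 4 * m) := by ring
      omega
    calc 2 ^ 10 * (m ^ 2 + 1 + 1) * (m + 1) ^ 6 ≤ 2 ^ 10 * (2 * (m + 1) ^ 2) * (m + 1) ^ 6 :=
          Nat.mul_le_mul_right _ (Nat.mul_le_mul_left _ h3)
      _ = 2 ^ 11 * (m + 1) ^ 8 := by ring
  · rw [h2 u]
    exact auction (fun a b => u (a, b) = true)

/-- A function of given functions. -/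
theorem Cost.comp {V β : Type} {Φ : Set ((V → Bool) → Prop)} (g : (β → Bool) → Bool)
    (C : Circuit β) (o : Wire β) (hC : ∀ u, Circuit.val C u o = g u)
    (Y : β → (V → Bool) → Bool) (hY : ∀ b, (fun x => Y b x = true) ∈ Φ) :
    Cost Φ (fun x => g (fun b => Y b x) = true) (Circuit.size C) := by
  classical
  rintro m Ψ h1 ⟨D, h2, h3⟩
  choose w hw hwv using fun b => h3 _ (h1 (hY b))
  obtain ⟨E, hE1, _, hE2, hE3⟩ := comp_circuit D w hw C
  obtain ⟨o', ho', hval⟩ := hE3 o
  have hsz : Circuit.size E ≤ m + Circuit.size C := by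
    unfold Circuit.size at h2 ⊢
    omega
  have hwY : ∀ x b, Circuit.val D x (w b) = Y b x := by
    intro x b
    have h4 := hwv b x
    rw [Bool.eq_iff_iff]
    exact h4
  have hval' : ∀ x, Circuit.val E x o' = g (fun b => Y b x) := by
    intro x
    rw [hval, ← hC]
    congr 1
    funext b
    exact hwY x b
  refine ⟨E, hsz, ?_⟩
  rintro F (rfl | hF)
  · by_cases ho : Bel C.length o
    · exact ⟨o', ho' ho, fun x => by rw [hval']⟩
    · have h5 : ∀ x, g (fun b => Y b x) = false := by
        intro x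
        rw [← hC]
        cases o with
        | var b => exact (ho trivial).elim
        | const c => exact (ho trivial).elim
        | gate i =>
          simp only [Bel, not_lt] at ho
          simp only [Circuit.val, Wire.val]
          apply List.getD_eq_default
          rw [gv_length]
          simpa using ho
      refine ⟨.const false, trivial, fun x => ?_⟩
      change Circuit.val E x (.const false) = true ↔ g (fun b => Y b x) = true
      rw [h5]
      simp [Circuit.val, Wire.val]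
  · obtain ⟨a, ha, hav⟩ := h3 F hF
    exact ⟨a, ha.mono (by omega), fun x => by rw [hE2 x a ha]; exact hav x⟩

theorem hasN_nil {V : Type} (Φ : Set ((V → Bool) → Prop)) (h : Φ ⊆ bas V) : HasN 0 Φ := by
  refine ⟨[], by simp [Circuit.size], fun F hF => ?_⟩
  rcases h hF with ⟨v, rfl⟩ | rfl | rfl
  · exact ⟨.var v, trivial, fun x => by simp [Circuit.val, Wire.val]⟩
  · exact ⟨.const true, trivial, fun x => by simp [Circuit.val, Wire.val]⟩
  · exact ⟨.const false, trivial, fun x => by simp [Circuit.val, Wire.val]⟩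

theorem Cost.exFin {V J : Type} [Fintype J] {Φ : Set ((V → Bool) → Prop)}
    (F : J → (V → Bool) → Prop) {c : ℕ} (h : ∀ j, Cost Φ (F j) c) :
    Cost Φ (fun x => ∃ j, F j x) (Fintype.card J * (c + 2) + 1) := by
  have h1 := (Cost.allMem (Finset.univ : Finset J) _ fun j => (h j).not).not
  have e : (fun x : V → Bool => ∃ j, F j x) = fun x => ¬ ∀ j ∈ (Finset.univ : Finset J), ¬ F j x := by
    funext x; simp
  rw [e]
  exact h1

/-- **The disjunction of `r` copies.** -/
theorem or_circuit {r : ℕ} {β : Type} (g : (β → Bool) → Bool)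
    (C : Circuit β) (o : Wire β) (hC : ∀ u, Circuit.val C u o = g u) :
    ∃ (E : Circuit (Fin r × β)) (o' : Wire (Fin r × β)),
      Circuit.size E ≤ r * (Circuit.size C + 2) + 1 ∧
      ∀ x : Fin r × β → Bool, Circuit.val E x o' = true ↔ ∃ i, g (fun b => x (i, b)) = true := by
  have h1 : HasN 0 (bas (Fin r × β)) := hasN_nil _ (Set.Subset.refl _)
  have h2 := Cost.exFin (Φ := bas (Fin r × β)) (J := Fin r)
    (fun i x => g (fun b => x (i, b)) = true) (c := Circuit.size C) (fun i =>
      Cost.comp g C o hC (fun b x => x (i, b)) (fun b => Or.inl ⟨(i, b), rfl⟩))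
  obtain ⟨E, h3, h4⟩ := h2 0 _ (Set.Subset.refl _) h1
  obtain ⟨w, _, hw⟩ := h4 _ (Or.inl rfl)
  refine ⟨E, w, ?_, hw⟩
  rw [Fintype.card_fin] at h3
  omega

end Pool.Agent.PMU
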