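import Pool.Agent.PMU.Defs
import Pool.Agent.NTR.Has

/-!
# Circuits of polynomial size for the auction algorithm
-/

set_option autoImplicit false

namespace Pool.Agent.PMU

open Pool.Agent.NegLim Pool.Agent.NTR

/-- Some circuit with at most `n` gates computes all functions of the family. -/
def HasN {V : Type} (n : ℕ) (Φ : Set ((V → Bool) → Prop)) : Prop :=
  ∃ C : Circuit V, C.size ≤ n ∧ ∀ F ∈ Φ, ∃ w : Wire V, Bel C.length w ∧ ∀ x, C.val x w = true ↔ F x

theorem HasN.mono {V : Type} {n m : ℕ} {Φ Ψ : Set ((V → Bool) → Prop)} (h : HasN n Φ) (hnm : n ≤ m)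
    (hs : Ψ ⊆ Φ) : HasN m Ψ := by
  obtain ⟨C, h2, h3⟩ := h
  exact ⟨C, h2.trans hnm, fun F hF => h3 F (hs hF)⟩

theorem HasN.snoc {V : Type} {n : ℕ} {Φ : Set ((V → Bool) → Prop)} (g : Wire V → Wire V → Gate V)
    (op : Prop → Prop → Prop)
    (hv : ∀ a b x p, (g a b).val x p = true ↔ op (a.val x p = true) (b.val x p = true))
    (h : HasN n Φ) {F G : (V → Bool) → Prop} (hF : F ∈ Φ) (hG : G ∈ Φ) :
    HasN (n + 1) (insert (fun x => op (F x) (G x)) Φ) := by
  obtain ⟨C, h2, h3⟩ := h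
  obtain ⟨a, ha, hav⟩ := h3 F hF
  obtain ⟨b, hb, hbv⟩ := h3 G hG
  refine ⟨C ++ [g a b], ?_, ?_⟩
  · unfold Circuit.size at h2 ⊢
    simp
    exact h2
  · rintro E (rfl | hE)
    · refine ⟨.gate C.length, by simp [Bel], fun x => ?_⟩
      have hl : (gateVals x C []).length = C.length := by rw [gv_length]; simp
      have e1 := hav x
      have e2 := hbv x
      unfold Circuit.val at e1 e2 ⊢
      rw [gv_snoc]
      simp only [Wire.val]
      rw [List.getD_eq_getElem _ _ (by rw [List.length_append, hl]; simp),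
        List.getElem_append_right (by rw [hl])]
      simp only [hl, Nat.sub_self, List.getElem_cons_zero]
      rw [hv, e1, e2]
    · obtain ⟨c, hc, hcv⟩ := h3 E hE
      refine ⟨c, hc.mono (by simp), fun x => ?_⟩
      rw [← hcv x]
      unfold Circuit.val
      rw [gv_snoc, wv_append]
      rw [gv_length]
      simpa using hc

theorem HasN.and {V : Type} {n : ℕ} {Φ : Set ((V → Bool) → Prop)} (h : HasN n Φ)
    {F G : (V → Bool) → Prop} (hF : F ∈ Φ) (hG : G ∈ Φ) :
    HasN (n + 1) (insert (fun x => F x ∧ G x) Φ) :=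
  h.snoc Gate.and And (fun a b x p => by simp [Gate.val]) hF hG

theorem HasN.or {V : Type} {n : ℕ} {Φ : Set ((V → Bool) → Prop)} (h : HasN n Φ)
    {F G : (V → Bool) → Prop} (hF : F ∈ Φ) (hG : G ∈ Φ) :
    HasN (n + 1) (insert (fun x => F x ∨ G x) Φ) :=
  h.snoc Gate.or Or (fun a b x p => by simp [Gate.val]) hF hG

theorem HasN.not {V : Type} {n : ℕ} {Φ : Set ((V → Bool) → Prop)} (h : HasN n Φ)
    {F : (V → Bool) → Prop} (hF : F ∈ Φ) : HasN (n + 1) (insert (fun x => ¬ F x) Φ) :=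
  h.snoc (fun a _ => Gate.not a) (fun p _ => ¬ p) (fun a b x p => by simp [Gate.val]) hF hF

/-- `F` is computed from the functions of `Φ` with `c` more gates. -/
def Cost {V : Type} (Φ : Set ((V → Bool) → Prop)) (F : (V → Bool) → Prop) (c : ℕ) : Prop :=
  ∀ (m : ℕ) (Ψ : Set ((V → Bool) → Prop)), Φ ⊆ Ψ → HasN m Ψ → HasN (m + c) (insert F Ψ)

section cost

variable {V : Type} {Φ : Set ((V → Bool) → Prop)}

theorem Cost.mono {F : (V → Bool) → Prop} {c d : ℕ} (h : Cost Φ F c) (hcd : c ≤ d) : Cost Φ F d :=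
  fun m Ψ h1 h2 => (h m Ψ h1 h2).mono (by omega) (Set.Subset.refl _)

theorem Cost.mem {F : (V → Bool) → Prop} (h : F ∈ Φ) : Cost Φ F 0 := by
  intro m Ψ h1 h2
  rw [Set.insert_eq_of_mem (h1 h)]
  exact h2

theorem Cost.const (P : Prop) : Cost Φ (fun _ : V → Bool => P) 0 := by
  classical
  rintro m Ψ h1 ⟨C, h2, h3⟩
  refine ⟨C, h2, ?_⟩
  rintro E (rfl | hE)
  · exact ⟨.const (decide P), trivial, fun x => by simp [Circuit.val, Wire.val]⟩
  · exact h3 E hE

theorem Cost.var (v : V) : Cost Φ (fun x : V → Bool => x v = true) 0 := by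
  rintro m Ψ h1 ⟨C, h2, h3⟩
  refine ⟨C, h2, ?_⟩
  rintro E (rfl | hE)
  · exact ⟨.var v, trivial, fun x => by simp [Circuit.val, Wire.val]⟩
  · exact h3 E hE

theorem Cost.not {F : (V → Bool) → Prop} {c : ℕ} (h : Cost Φ F c) :
    Cost Φ (fun x => ¬ F x) (c + 1) := by
  intro m Ψ h1 h2
  refine ((h m Ψ h1 h2).not (Or.inl rfl)).mono (by omega) ?_
  rintro E (rfl | hE)
  · exact Or.inl rfl
  · exact Or.inr (Or.inr hE)

theorem Cost.and {F G : (V → Bool) → Prop} {c d : ℕ} (h : Cost Φ F c) (h' : Cost Φ G d) :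
    Cost Φ (fun x => F x ∧ G x) (c + d + 1) := by
  intro m Ψ h1 h2
  have h3 := h m Ψ h1 h2
  have h4 := h' _ _ (h1.trans (Set.subset_insert F Ψ)) h3
  refine (h4.and (Or.inr (Or.inl rfl)) (Or.inl rfl)).mono (by omega) ?_
  rintro E (rfl | hE)
  · exact Or.inl rfl
  · exact Or.inr (Or.inr (Or.inr hE))

theorem Cost.or {F G : (V → Bool) → Prop} {c d : ℕ} (h : Cost Φ F c) (h' : Cost Φ G d) :
    Cost Φ (fun x => F x ∨ G x) (c + d + 1) := by
  intro m Ψ h1 h2
  have h3 := h m Ψ h1 h2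
  have h4 := h' _ _ (h1.trans (Set.subset_insert F Ψ)) h3
  refine (h4.or (Or.inr (Or.inl rfl)) (Or.inl rfl)).mono (by omega) ?_
  rintro E (rfl | hE)
  · exact Or.inl rfl
  · exact Or.inr (Or.inr (Or.inr hE))

theorem Cost.imp {F G : (V → Bool) → Prop} {c d : ℕ} (h : Cost Φ F c) (h' : Cost Φ G d) :
    Cost Φ (fun x => F x → G x) (c + d + 2) := by
  have e : (fun x : V → Bool => F x → G x) = fun x => ¬ F x ∨ G x := by
    funext x; exact propext imp_iff_not_or
  rw [e]
  exact (h.not.or h').mono (by omega)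

theorem Cost.allMem {J : Type} (s : Finset J) (F : J → (V → Bool) → Prop) {c : ℕ}
    (h : ∀ j, Cost Φ (F j) c) : Cost Φ (fun x => ∀ j ∈ s, F j x) (s.card * (c + 1)) := by
  classical
  induction s using Finset.induction_on with
  | empty =>
    have e : (fun x : V → Bool => ∀ j ∈ (∅ : Finset J), F j x) = fun _ => True := by
      funext x; simp
    rw [e]
    exact (Cost.const True).mono (by simp)
  | insert j s hj ih =>
    have e : (fun x : V → Bool => ∀ i ∈ insert j s, F i x) =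
        fun x => F j x ∧ ∀ i ∈ s, F i x := by
      funext x; simp
    rw [e, Finset.card_insert_of_notMem hj]
    exact ((h j).and ih).mono (by ring_nf; omega)

theorem Cost.all {n : ℕ} (F : Fin n → (V → Bool) → Prop) {c : ℕ}
    (h : ∀ j, Cost Φ (F j) c) : Cost Φ (fun x => ∀ j, F j x) (n * (c + 1)) := by
  have h1 := Cost.allMem Finset.univ F h
  simpa using h1

theorem Cost.ex {n : ℕ} (F : Fin n → (V → Bool) → Prop) {c : ℕ}
    (h : ∀ j, Cost Φ (F j) c) : Cost Φ (fun x => ∃ j, F j x) (n * (c + 2) + 1) := by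
  have h1 := (Cost.all _ fun j => (h j).not).not
  have e : (fun x : V → Bool => ∃ j, F j x) = fun x => ¬ ∀ j, ¬ F j x := by
    funext x; simp
  rw [e]
  exact h1

theorem HasN.family {K : Type} {n c : ℕ} (h : HasN n Φ) (s : Finset K)
    (G : K → (V → Bool) → Prop) (hG : ∀ k ∈ s, Cost Φ (G k) c) :
    HasN (n + c * s.card) (Φ ∪ {F | ∃ k ∈ s, F = G k}) := by
  classical
  induction s using Finset.induction_on with
  | empty =>
    refine h.mono (by simp) ?_
    rintro E (hE | ⟨k, hk, _⟩)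
    · exact hE
    · exact absurd hk (Finset.notMem_empty k)
  | insert k s hk ih =>
    have h1 := ih fun i hi => hG i (Finset.mem_insert_of_mem hi)
    have h2 := hG k (Finset.mem_insert_self k s) _ _ Set.subset_union_left h1
    refine h2.mono (by rw [Finset.card_insert_of_notMem hk]; ring_nf; omega) ?_
    rintro E (hE | ⟨i, hi, rfl⟩)
    · exact Or.inr (Or.inl hE)
    · rcases Finset.mem_insert.mp hi with rfl | hi
      · exact Or.inl rfl
      · exact Or.inr (Or.inr ⟨i, hi, rfl⟩)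

end cost

section auction

variable {n : ℕ} {V : Type} {Φ : Set ((V → Bool) → Prop)}

/-- All bits of the state are in the family. -/
def InFam (Φ : Set ((V → Bool) → Prop)) (S : (V → Bool) → St n) : Prop :=
  (∀ a b, (fun u => (S u).o a b) ∈ Φ) ∧ ∀ b t, (fun u => (S u).p b t) ∈ Φ

theorem cost_free {S : (V → Bool) → St n} (h : InFam Φ S) (a : Fin n) :
    Cost Φ (fun u => Free (S u) a) (n * 2) :=
  Cost.all _ fun b => (Cost.mem (h.1 a b)).not

theorem cost_frst {S : (V → Bool) → St n} (h : InFam Φ S) (a : Fin n) :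
    Cost Φ (fun u => Frst (S u) a) (n * 2 + n * (n * 2 + 4) + 1) := by
  refine (((cost_free h a).and (Cost.all _ fun a' => (Cost.const (a' < a)).imp
    (cost_free h a').not))).mono ?_
  ring_nf; omega

theorem cost_leq {S : (V → Bool) → St n} (h : InFam Φ S) (b b' : Fin n) :
    Cost Φ (fun u => Leq (S u) b b') (n * 3) :=
  (Cost.all _ fun t => (Cost.mem (h.2 b t)).imp (Cost.mem (h.2 b' t))).mono (by omega)

theorem cost_best {S : (V → Bool) → St n} (h : InFam Φ S) {x : Fin n → Fin n → (V → Bool) → Prop}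
    (hx : ∀ a b, Cost Φ (x a b) 0) (a b : Fin n) :
    Cost Φ (fun u => Best (fun a b => x a b u) (S u) a b) (14 * (n + 1) ^ 2) := by
  refine ((cost_frst h a).and ((hx a b).and ((Cost.ex _ fun t => (Cost.mem (h.2 b t)).not).and
    (Cost.all _ fun b' => (hx a b').imp ((cost_leq h b b').and
      ((cost_leq h b' b).not.or (Cost.const (b ≤ b')))))))).mono ?_
  ring_nf; nlinarith

theorem cost_o {S : (V → Bool) → St n} (h : InFam Φ S) {x : Fin n → Fin n → (V → Bool) → Prop}
    (hx : ∀ a b, Cost Φ (x a b) 0) (a b : Fin n) :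
    Cost Φ (fun u => (nxt (fun a b => x a b u) (S u)).o a b) (20 * (n + 1) ^ 3) := by
  refine ((cost_best h hx a b).or ((Cost.mem (h.1 a b)).and
    (Cost.all _ fun a' => (cost_best h hx a' b).not))).mono ?_
  ring_nf; nlinarith

theorem cost_p {S : (V → Bool) → St n} (h : InFam Φ S) {x : Fin n → Fin n → (V → Bool) → Prop}
    (hx : ∀ a b, Cost Φ (x a b) 0) (b t : Fin n) :
    Cost Φ (fun u => (nxt (fun a b => x a b u) (S u)).p b t) (20 * (n + 1) ^ 3) := by
  refine ((Cost.mem (h.2 b t)).or ((Cost.ex _ fun a => cost_best h hx a b).and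
    (Cost.all _ fun t' => (Cost.const (t' < t)).imp (Cost.mem (h.2 b t'))))).mono ?_
  ring_nf; nlinarith

theorem hasN_st (X : Fin n → Fin n → (V → Bool) → Prop) (hX : ∀ a b, X a b ∈ Φ) {m : ℕ}
    (h : HasN m Φ) (k : ℕ) : ∃ Ψ : Set ((V → Bool) → Prop), Φ ⊆ Ψ ∧
    HasN (m + k * (20 * (n + 1) ^ 3 * (2 * n ^ 2))) Ψ ∧
      InFam Ψ fun u => st (fun a b => X a b u) k := by
  induction k with
  | zero =>
    refine ⟨insert (fun _ => False) Φ, Set.subset_insert _ _,
      (Cost.const False m Φ (Set.Subset.refl _) h).mono (by simp) (Set.Subset.refl _), ?_, ?_⟩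
    · intro a b; exact Or.inl rfl
    · intro a b; exact Or.inl rfl
  | succ k ih =>
    obtain ⟨Ψ, h0, h1, h2⟩ := ih
    set G : Bool × Fin n × Fin n → (V → Bool) → Prop := fun i u =>
      if i.1 = true then (nxt (fun a b => X a b u)
          (st (fun a b => X a b u) k)).o i.2.1 i.2.2
        else (nxt (fun a b => X a b u)
          (st (fun a b => X a b u) k)).p i.2.1 i.2.2 with hG
    have h3 : ∀ i ∈ (Finset.univ : Finset (Bool × Fin n × Fin n)), Cost Ψ (G i)
        (20 * (n + 1) ^ 3) := by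
      rintro ⟨i, a, b⟩ _
      cases i with
      | false =>
        have := cost_p h2 (x := X) (fun a b => Cost.mem (h0 (hX a b))) a b
        simpa [hG] using this
      | true =>
        have := cost_o h2 (x := X) (fun a b => Cost.mem (h0 (hX a b))) a b
        simpa [hG] using this
    refine ⟨Ψ ∪ {F | ∃ i ∈ Finset.univ, F = G i}, h0.trans Set.subset_union_left,
      (h1.family Finset.univ G h3).mono ?_ (Set.Subset.refl _), ?_, ?_⟩
    · have : (Finset.univ : Finset (Bool × Fin n × Fin n)).card = 2 * n ^ 2 := by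
        simp [Fintype.card_prod, sq]
      rw [this]
      exact le_of_eq (by ring)
    · intro a b
      exact Or.inr ⟨(true, a, b), Finset.mem_univ _, by funext u; simp [hG, st]⟩
    · intro b t
      exact Or.inr ⟨(false, b, t), Finset.mem_univ _, by funext u; simp [hG, st]⟩

/-- The auction algorithm on a graph whose edges are functions of the family. -/
theorem cost_auction (X : Fin n → Fin n → (V → Bool) → Prop) (hX : ∀ a b, X a b ∈ Φ) (k : ℕ) :
    Cost Φ (fun v => ∀ a, ¬ Free (st (fun a b => X a b v) k) a)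
      (2 ^ 10 * (k + 1) * (n + 1) ^ 6) := by
  intro m Ψ hΨ h
  obtain ⟨Θ, h0, h1, h2⟩ := hasN_st X (fun a b => hΨ (hX a b)) h k
  have h3 := Cost.all (fun a u => ¬ Free (st (fun a b => X a b u) k) a)
    fun a => (cost_free h2 a).not
  refine (h3 _ _ (Set.Subset.refl _) h1).mono ?_ (Set.insert_subset_insert h0)
  have e1 : (20 * (n + 1) ^ 3 * (2 * n ^ 2)) ≤ 40 * (n + 1) ^ 6 := by
    have : n ^ 2 ≤ (n + 1) ^ 3 :=
      (Nat.pow_le_pow_left (Nat.le_succ n) 2).trans (Nat.pow_le_pow_right (Nat.succ_pos n) (by norm_num))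
    calc 20 * (n + 1) ^ 3 * (2 * n ^ 2) ≤ 20 * (n + 1) ^ 3 * (2 * (n + 1) ^ 3) := by gcongr
      _ = 40 * (n + 1) ^ 6 := by ring
  have e2 : n * (n * 2 + 1 + 1) ≤ 2 * (n + 1) ^ 6 := by
    have : (n + 1) ^ 2 ≤ (n + 1) ^ 6 := Nat.pow_le_pow_right (Nat.succ_pos n) (by norm_num)
    nlinarith
  have e3 : k * (20 * (n + 1) ^ 3 * (2 * n ^ 2)) ≤ k * (40 * (n + 1) ^ 6) :=
    Nat.mul_le_mul_left k e1
  have e4 : k * (40 * (n + 1) ^ 6) + 2 * (n + 1) ^ 6 ≤ 2 ^ 10 * (k + 1) * (n + 1) ^ 6 := by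
    have := Nat.zero_le ((n + 1) ^ 6 * k)
    nlinarith [Nat.zero_le ((n + 1) ^ 6)]
  omega

theorem HasN.auction {m : ℕ} (h : HasN m Φ) (X : Fin n → Fin n → (V → Bool) → Prop)
    (hX : ∀ a b, X a b ∈ Φ) (k : ℕ) :
    HasN (m + 2 ^ 10 * (k + 1) * (n + 1) ^ 6)
      (insert (fun v => ∀ a, ¬ Free (st (fun a b => X a b v) k) a) Φ) :=
  cost_auction X hX k m Φ (Set.Subset.refl _) h

theorem hasN_empty (V : Type) : HasN 0 (∅ : Set ((V → Bool) → Prop)) :=
  ⟨[], by simp [Circuit.size], fun _ h => absurd h (Set.notMem_empty _)⟩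

/-- Variables and constants are free of cost. -/
theorem hasN_bas (V : Type) : HasN 0 (bas V) := by
  refine ⟨[], by simp [Circuit.size], ?_⟩
  rintro F (⟨v, rfl⟩ | rfl | rfl)
  · exact ⟨.var v, trivial, fun x => by simp [Circuit.val, Wire.val]⟩
  · exact ⟨.const true, trivial, fun x => by simp [Circuit.val, Wire.val]⟩
  · exact ⟨.const false, trivial, fun x => by simp [Circuit.val, Wire.val]⟩

/-- A cost statement gives a circuit. -/
theorem Cost.circuit {F : (V → Bool) → Prop} {c : ℕ} (h : Cost (bas V) F c) :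
    ∃ (C : Circuit V) (o : Wire V), C.size ≤ c ∧ ∀ u, C.val u o = true ↔ F u := by
  obtain ⟨C, h4, h5⟩ := h 0 _ (Set.Subset.refl _) (hasN_bas V)
  obtain ⟨w, _, hw⟩ := h5 _ (Or.inl rfl)
  exact ⟨C, w, by simpa using h4, hw⟩

theorem st_circuit (n k : ℕ) : ∃ (C : Circuit (Fin n × Fin n)) (o : Wire (Fin n × Fin n)),
    C.size ≤ 2 ^ 10 * (k + 1) * (n + 1) ^ 6 ∧ ∀ u : Fin n × Fin n → Bool,
      C.val u o = true ↔ ∀ a, ¬ Free (st (fun a b => u (a, b) = true) k) a :=
  (cost_auction (Φ := bas (Fin n × Fin n)) (fun a b u => u (a, b) = true)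
    (fun a b => Or.inl ⟨(a, b), rfl⟩) k).circuit

end auction

end Pool.Agent.PMU
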