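import Mathlib

/-!
# The auction algorithm for bipartite perfect matching
-/

namespace Pool.Agent.PMU

/-- Owners and prices; the price of `b` is the number of `t` with `p b t`. -/
structure St (n : ℕ) where
  /-- `a` owns `b` -/
  o : Fin n → Fin n → Prop
  /-- the price of `b` is more than `t` -/
  p : Fin n → Fin n → Prop

variable {n : ℕ}

/-- `a` owns nothing. -/
def Free (s : St n) (a : Fin n) : Prop := ∀ b, ¬ s.o a b

/-- `a` is the first which owns nothing. -/
def Frst (s : St n) (a : Fin n) : Prop := Free s a ∧ ∀ a', a' < a → ¬ Free s a'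

/-- The price of `b` is at most the price of `b'`. -/
def Leq (s : St n) (b b' : Fin n) : Prop := ∀ t, s.p b t → s.p b' t

/-- `a` is the first which owns nothing and buys `b`, the first cheapest neighbour. -/
def Best (x : Fin n → Fin n → Prop) (s : St n) (a b : Fin n) : Prop :=
  Frst s a ∧ x a b ∧ (∃ t, ¬ s.p b t) ∧ ∀ b', x a b' → Leq s b b' ∧ (¬ Leq s b' b ∨ b ≤ b')

/-- One step. -/
def nxt (x : Fin n → Fin n → Prop) (s : St n) : St n where
  o a b := Best x s a b ∨ (s.o a b ∧ ∀ a', ¬ Best x s a' b)
  p b t := s.p b t ∨ ((∃ a, Best x s a b) ∧ ∀ t', t' < t → s.p b t')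

/-- The states. -/
def st (x : Fin n → Fin n → Prop) : ℕ → St n
  | 0 => ⟨fun _ _ => False, fun _ _ => False⟩
  | k + 1 => nxt x (st x k)

end Pool.Agent.PMU
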