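import Pool.Agent.PMU.Match
import Pool.Agent.NTR.FullDefs

/-!
# Small circuits for the function with selectors
-/

namespace Pool.Agent.PMU

open Pool.Agent.NegLim Pool.Agent.NTR Pool.Agent.PMB

/-- **The function with selectors has small circuits if `g` has.** -/
theorem self_circuit {r L : ℕ} {β : Type} [Fintype β] (code : SelfVar r L β → Fin L → Bool)
    (g : (β → Bool) → Bool) (C : Circuit β) (o : Wire β) (hC : ∀ u, Circuit.val C u o = g u) :
    ∃ (E : Circuit (SelfVar r L β)) (o' : Wire (SelfVar r L β)),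
      Circuit.size E ≤ (Fintype.card (SelfVar r L β) * (L + 3) + 1) * (2 * r * Fintype.card β)
        + (2 * r * (Circuit.size C + 2) + 1) ∧
      ∀ x, Circuit.val E x o' = true ↔ SelfHard code g x := by
  classical
  have h1 : HasN 0 (bas (SelfVar r L β)) := hasN_nil _ (Set.Subset.refl _)
  have h2 : ∀ k : (Bool × Fin r) × β, Cost (bas (SelfVar r L β)) (fun x => selfVal code x k)
      (Fintype.card (SelfVar r L β) * (L + 3) + 1) := by
    intro k
    have h3 : ∀ p : SelfVar r L β, Cost (bas (SelfVar r L β))
        (fun x => x p = true ∧ ∀ l, x (k, l, code p l) = true) (0 + L * (0 + 1) + 1) := fun p =>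
      (Cost.var p).and (Cost.all (fun l x => x (k, l, code p l) = true) fun l => Cost.var _)
    refine (Cost.exFin _ h3).mono ?_
    apply le_of_eq
    ring
  have h4 := h1.family (Finset.univ : Finset ((Bool × Fin r) × β))
    (fun k x => selfVal code x k) (fun k _ => h2 k)
  have h5 := Cost.exFin (Φ := bas (SelfVar r L β) ∪ {F | ∃ k ∈ (Finset.univ :
      Finset ((Bool × Fin r) × β)), F = fun x => selfVal code x k}) (J := Bool × Fin r)
    (fun i x => g (fun b => decide (selfVal code x (i, b))) = true) (c := Circuit.size C) (fun i =>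
      Cost.comp g C o hC (fun b x => decide (selfVal code x (i, b))) (fun b =>
        Or.inr ⟨(i, b), Finset.mem_univ _, by funext x; simp⟩))
  obtain ⟨E, h6, h7⟩ := h5 _ _ (Set.Subset.refl _) h4
  obtain ⟨w, _, hw⟩ := h7 _ (Or.inl rfl)
  refine ⟨E, w, ?_, fun x => ?_⟩
  · refine h6.trans (le_of_eq ?_)
    have e1 : Fintype.card (Bool × Fin r) = 2 * r := by simp
    have e2 : (Finset.univ : Finset ((Bool × Fin r) × β)).card = 2 * r * Fintype.card β := by
      rw [Finset.card_univ, Fintype.card_prod, e1]
    rw [e1, e2]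
    ring
  · rw [hw x]
    unfold SelfHard
    constructor
    · rintro ⟨i, hi⟩
      exact ⟨i, _, fun b => by simp, hi⟩
    · rintro ⟨i, u, hu, hg⟩
      refine ⟨i, ?_⟩
      have : (fun b => decide (selfVal code x (i, b))) = u := by
        funext b
        rw [Bool.eq_iff_iff, hu b]
        simp
      rw [this]
      exact hg

/-- **The function with selectors for perfect matchings has circuits of polynomial size.** -/
theorem self_match {r L m : ℕ} (code : SelfVar r L (Fin m × Fin m) → Fin L → Bool)
    (g : (Fin m × Fin m → Bool) → Bool) (hg : ∀ u, g u = true ↔ HasPM u) :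
    ∃ (E : Circuit (SelfVar r L (Fin m × Fin m))) (o' : Wire (SelfVar r L (Fin m × Fin m))),
      Circuit.size E ≤ (4 * r * m ^ 2 * L * (L + 3) + 1) * (2 * r * m ^ 2)
        + (2 * r * (2 ^ 11 * (m + 1) ^ 8 + 2) + 1) ∧
      ∀ x, Circuit.val E x o' = true ↔ SelfHard code g x := by
  obtain ⟨C, o, h1, h2⟩ := match_upper m
  obtain ⟨E, o', h3, h4⟩ := self_circuit code g C o (fun u => by rw [Bool.eq_iff_iff, h2, hg])
  refine ⟨E, o', h3.trans ?_, h4⟩
  have e : Fintype.card (SelfVar r L (Fin m × Fin m)) = 4 * r * m ^ 2 * L := by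
    simp only [Fintype.card_prod, Fintype.card_bool, Fintype.card_fin]
    ring
  rw [e, Fintype.card_prod, Fintype.card_fin]
  have e2 : m * m = m ^ 2 := by ring
  rw [e2]
  gcongr

end Pool.Agent.PMU
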